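import Mathlib

open Set Polynomial

namespace Pool.Agent.H.MP_bfb3ed_al

/-- coefficient fields for henselian pairs in characteristic zero -/
lemma sect {A K : Type} [CommRing A] [Field K] [CharZero K] (π : A →+* K)
    (sj : Function.Surjective π)
    (hen : ∀ (P : A[X]) (L : K), (P.map π).eval L = 0 → (P.map π).derivative.eval L ≠ 0 →
      ∃ a, π a = L ∧ P.eval a = 0) :
    ∃ S : Subring A, (∀ a ∈ S, π a = 0 → a = 0) ∧ ∀ L, ∃ a ∈ S, π a = L := by
  have un : ∀ s, π s ≠ 0 → ∃ b, s * b = 1 := by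
    intro s hs
    obtain ⟨b, -, hb⟩ := hen (C s * X - 1) (π s)⁻¹ (by simp [hs]) (by simpa using hs)
    exact ⟨b, by simpa [sub_eq_zero] using hb⟩
  obtain ⟨S, -, hS⟩ := zorn_le_nonempty₀ {S : Subring A | ∀ a ∈ S, π a = 0 → a = 0}
    (fun c hc ch y hy => ⟨sSup c, fun a ha => by
      obtain ⟨T, hT, h⟩ := (Subring.mem_sSup_of_directedOn ⟨y, hy⟩ ch.directedOn).1 ha
      exact hc hT a h, fun z hz => le_sSup hz⟩) ⊥ (by
      intro a ha h
      obtain ⟨n, rfl⟩ := Subring.mem_bot.1 ha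
      simp at h
      simp [h])
  refine ⟨S, hS.1, ?_⟩
  have loc : ∀ s ∈ S, π s ≠ 0 → ∀ a, s * a ∈ S → a ∈ S := by
    let T : Subring A :=
      { carrier := {a | ∃ s ∈ S, π s ≠ 0 ∧ s * a ∈ S}
        mul_mem' := by
          rintro a b ⟨s, h1, h2, h3⟩ ⟨t, k1, k2, k3⟩
          exact ⟨s * t, S.mul_mem h1 k1, by simp [h2, k2], by
            convert S.mul_mem h3 k3 using 1; ring⟩
        one_mem' := ⟨1, S.one_mem, by simp, by simp⟩
        add_mem' := by
          rintro a b ⟨s, h1, h2, h3⟩ ⟨t, k1, k2, k3⟩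
          exact ⟨s * t, S.mul_mem h1 k1, by simp [h2, k2], by
            convert S.add_mem (S.mul_mem k1 h3) (S.mul_mem h1 k3) using 1; ring⟩
        zero_mem' := ⟨1, S.one_mem, by simp, by simp⟩
        neg_mem' := by
          rintro a ⟨s, h1, h2, h3⟩
          exact ⟨s, h1, h2, by simpa using h3⟩ }
    have : T ≤ S := hS.2 (y := T) (by
      rintro a ⟨s, h1, h2, h3⟩ h
      obtain ⟨b, hb⟩ := un s h2
      have := hS.1 _ h3 (by simp [h])
      calc a = b * (s * a) := by rw [← mul_assoc, mul_comm b, hb, one_mul]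
        _ = 0 := by rw [this, mul_zero]) (fun a ha => ⟨1, S.one_mem, by simp, by simpa using ha⟩)
    exact fun s h1 h2 a h3 => this ⟨s, h1, h2, h3⟩
  let ι : S →+* K := π.comp S.subtype
  have hF : IsField S :=
    { exists_pair_ne := ⟨0, 1, fun h => by simpa using congrArg ι h⟩
      mul_comm := mul_comm
      mul_inv_cancel := by
        intro s hs
        have h0 : π s ≠ 0 := fun h => hs (Subtype.ext (hS.1 _ s.2 h))
        obtain ⟨b, hb⟩ := un s h0
        exact ⟨⟨b, loc s s.2 h0 b (hb ▸ S.one_mem)⟩, Subtype.ext hb⟩ }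
  have step : ∀ a : A, (∀ R : S[X], π (R.eval₂ S.subtype a) = 0 → R.eval₂ S.subtype a = 0) →
      a ∈ S := by
    intro a ha
    have : (eval₂RingHom S.subtype a).range ≤ S := hS.2 (y := (eval₂RingHom S.subtype a).range)
      (by rintro _ ⟨R, rfl⟩; exact ha R) (fun s hs => ⟨C ⟨s, hs⟩, by simp⟩)
    exact this ⟨X, by simp⟩
  intro L
  letI := hF.toField
  letI : Algebra S K := ι.toAlgebra
  haveI : CharZero S := ι.charZero
  have e : ∀ (R : S[X]) a, π a = L → π (R.eval₂ S.subtype a) = aeval L R := by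
    intro R a h
    rw [hom_eval₂, h]; rfl
  by_cases h : IsAlgebraic S L
  · have hi := h.isIntegral
    have m : ((minpoly S L).map S.subtype).map π = (minpoly S L).map (algebraMap S K) := by
      rw [Polynomial.map_map]; rfl
    obtain ⟨a, h1, h2⟩ := hen ((minpoly S L).map S.subtype) L
      (by rw [m, eval_map_algebraMap, minpoly.aeval])
      (by
        rw [m, derivative_map, eval_map_algebraMap]
        exact (minpoly.irreducible hi).separable.aeval_derivative_ne_zero (minpoly.aeval _ _))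
    refine ⟨a, step a fun R hR => ?_, h1⟩
    rw [e R a h1] at hR
    obtain ⟨R', rfl⟩ := minpoly.dvd S L hR
    rw [eval₂_mul, ← eval_map, h2, zero_mul]
  · obtain ⟨a, h1⟩ := sj L
    refine ⟨a, step a fun R hR => ?_, h1⟩
    rw [e R a h1] at hR
    rw [transcendental_iff.1 h R hR, eval₂_zero]

section
variable {R W : Type} [CommRing R] [IsDomain R] [CommRing W] [IsDomain W] (α : R →+* W)

noncomputable def Qr : Subring W :=
  letI := α.toAlgebra
  (Subalgebra.algebraicClosure R W).toSubring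

lemma Qr_range (r : R) : α r ∈ Qr α :=
  letI := α.toAlgebra
  (Subalgebra.algebraicClosure R W).algebraMap_mem r

lemma Qr_inj (ε : W →+* ℝ) (h : Function.Injective (ε.comp α)) {g : W} (hg : g ∈ Qr α)
    (e : ε g = 0) : g = 0 := by
  letI := α.toAlgebra
  by_contra c
  obtain ⟨r, hr, d, hd⟩ := IsAlgebraic.exists_nonzero_dvd (R := R) hg
    (mem_nonZeroDivisors_of_ne_zero c)
  apply hr
  apply h
  have : α r = g * d := hd
  simp [this, e]

lemma Qr_count [Countable R] (h : Function.Injective α) : (Qr α : Set W).Countable := by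
  letI := α.toAlgebra
  haveI : FaithfulSMul R W := (faithfulSMul_iff_algebraMap_injective R W).2 h
  exact Algebraic.countable R W

lemma Qr_root (d : ℕ) (c : ℕ → W) (hc : ∀ i, i < d → c i ∈ Qr α) (i : ℕ) (hi : i < d)
    (h0 : c i ≠ 0) (g : W) (e : ∑ i ∈ Finset.range d, c i * g ^ i = 0) : g ∈ Qr α := by
  classical
  letI := α.toAlgebra
  let Q := Subalgebra.algebraicClosure R W
  have : IsAlgebraic Q g := by
    refine ⟨∑ j ∈ Finset.range d, monomial j (if h : j < d then ⟨c j, hc j h⟩ else 0), ?_, ?_⟩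
    · intro z
      have := congrArg (fun p => ((coeff p i : Q) : W)) z
      simp [coeff_monomial, hi] at this
      exact h0 this
    · rw [map_sum, ← e]
      refine Finset.sum_congr rfl fun j hj => ?_
      rw [aeval_monomial, dif_pos (Finset.mem_range.1 hj)]; rfl
  exact this.restrictScalars R

end

instance mvc {σ : Type} [Countable σ] : Countable (MvPolynomial σ ℚ) :=
  (AddMonoidAlgebra.coeff_injective (R := ℚ) (M := σ →₀ ℕ)).countable

lemma ex_τ : ∃ τ : ℕ → ℝ, AlgebraicIndependent ℚ τ := by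
  obtain ⟨s, hs⟩ := exists_isTranscendenceBasis ℚ ℝ
  have : Infinite s := by
    by_contra c
    have : Finite s := not_infinite_iff_finite.1 c
    haveI := hs.isAlgebraic
    haveI : Countable (Algebra.adjoin ℚ (range ((↑) : s → ℝ))) :=
      hs.1.aevalEquiv.toEquiv.symm.countable_iff.2 inferInstance
    have := Algebraic.countable (Algebra.adjoin ℚ (range ((↑) : s → ℝ))) ℝ
    exact Set.not_countable_univ (this.mono fun x _ => Algebra.IsAlgebraic.isAlgebraic x)
  exact ⟨_, hs.1.comp _ (Infinite.natEmbedding s).injective⟩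

open Topology Filter in
lemma ift (d : ℕ) (c : Fin d → ℝ) (L : ℝ) (h0 : ∑ i, c i * L ^ i.1 = 0)
    (h1 : ∑ i, c i * (i.1 * L ^ (i.1 - 1)) ≠ 0) :
    ∃ Ψ : (Fin d → ℝ) → ℝ, Ψ c = L ∧ ∀ᶠ x in 𝓝 c, AnalyticAt ℝ Ψ x ∧ ∑ i, x i * Ψ x ^ i.1 = 0 := by
  let f : (Fin d → ℝ) × ℝ → ℝ := fun p => ∑ i, p.1 i * p.2 ^ i.1
  have cd : ContDiffAt ℝ ⊤ f (c, L) := by
    apply ContDiff.contDiffAt
    fun_prop
  have iv : (fderiv ℝ f (c, L) ∘L .inr ℝ (Fin d → ℝ) ℝ).IsInvertible := by
    have a1 : HasFDerivAt (fun y => f (c, y)) (fderiv ℝ f (c, L) ∘L .inr ℝ (Fin d → ℝ) ℝ) L :=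
      (cd.differentiableAt (by simp)).hasFDerivAt.comp L (hasFDerivAt_prodMk_right c L)
    have a2 : HasDerivAt (fun y => f (c, y)) (∑ i, c i * (i.1 * L ^ (i.1 - 1))) L :=
      HasDerivAt.fun_sum fun i _ => (hasDerivAt_pow i.1 L).const_mul (c i)
    rw [a1.unique (a2.hasFDerivAt_equiv h1)]
    exact ⟨_, rfl⟩
  refine ⟨cd.implicitFunction (by simp) iv, cd.implicitFunction_apply_self _ iv, ?_⟩
  filter_upwards [(cd.contDiffAt_implicitFunction (by simp) iv).analyticAt.eventually_analyticAt,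
    cd.eventually_apply_implicitFunction (by simp) iv] with x a b
  exact ⟨a, b.trans h0⟩

end Pool.Agent.H.MP_bfb3ed_al
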