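import Pool.Agent.H.MP_bfb3ed_al.A

open Set Polynomial Filter Topology

namespace Pool.Agent.H.MP_bfb3ed_al

abbrev J := Icc (0:ℝ) 1

def W : Subring (J → ℝ) where
  carrier := {g | ∃ φ : ℝ → ℝ, AnalyticOnNhd ℝ φ J ∧ ∀ s : J, g s = φ s}
  mul_mem' := by
    rintro _ _ ⟨a, h, e⟩ ⟨b, k, f⟩
    exact ⟨fun x => a x * b x, h.mul k, fun s => by simp [e, f]⟩
  one_mem' := ⟨fun _ => 1, analyticOnNhd_const, fun _ => rfl⟩
  add_mem' := by
    rintro _ _ ⟨a, h, e⟩ ⟨b, k, f⟩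
    exact ⟨fun x => a x + b x, h.add k, fun s => by simp [e, f]⟩
  zero_mem' := ⟨fun _ => 0, analyticOnNhd_const, fun _ => rfl⟩
  neg_mem' := by
    rintro _ ⟨a, h, e⟩
    exact ⟨fun x => -a x, h.neg, fun s => by simp [e]⟩

def j0 : J := ⟨0, le_rfl, zero_le_one⟩
def j1 : J := ⟨1, zero_le_one, le_rfl⟩

instance : Nontrivial W := ⟨⟨0, 1, fun h => by simpa using congrArg (fun g : W => g.1 j0) h⟩⟩

instance : NoZeroDivisors W where
  eq_zero_or_eq_zero_of_mul_eq_zero := by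
    rintro ⟨f, a, h, e⟩ ⟨g, b, k, e'⟩ z
    refine (h.eq_zero_or_eq_zero_of_mul_eq_zero k (fun s hs => ?_) isPreconnected_Icc).imp
      (fun c => Subtype.ext (funext fun s => (e s).trans (c s s.2)))
      (fun c => Subtype.ext (funext fun s => (e' s).trans (c s s.2)))
    rw [← e ⟨s, hs⟩, ← e' ⟨s, hs⟩]
    exact congrArg (fun g : W => g.1 ⟨s, hs⟩) z

instance : IsDomain W := NoZeroDivisors.to_isDomain W

def cst : ℝ →+* W :=
  (Pi.constRingHom J ℝ).codRestrict W fun c => ⟨fun _ => c, analyticOnNhd_const, fun _ => rfl⟩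

def T : W := ⟨fun s => s, fun x => x, analyticOnNhd_id, fun _ => rfl⟩

def ev (s : J) : W →+* ℝ := (Pi.evalRingHom (fun _ => ℝ) s).comp W.subtype

lemma ev_cst (s : J) (c : ℝ) : ev s (cst c) = c := rfl
lemma ev_T (s : J) : ev s T = s := rfl

noncomputable def e (j : ℕ) (s : ℝ) : ℝ := 1 / (j + 1 + s)

lemma e_succ (j : ℕ) : e (j + 1) 0 = e j 1 := by simp [e]

lemma e_pos (j : ℕ) {s : ℝ} (h : 0 ≤ s) : 0 < e j s := by unfold e; positivity

lemma e_le {i j : ℕ} {s t : ℝ} (h : 0 ≤ s) (k : i + s ≤ j + t) : e j t ≤ e i s :=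
  one_div_le_one_div_of_le (by positivity) (by linarith)

lemma e_mem (j : ℕ) (s : J) : e j s ∈ Icc 0 (e j 0) :=
  ⟨(e_pos j s.2.1).le, e_le le_rfl (by linarith [s.2.1])⟩

lemma e_sub {n m : ℕ} (h : n ≤ m) : Icc 0 (e m 0) ⊆ Icc 0 (e n 0) :=
  Icc_subset_Icc_right (e_le le_rfl (by simpa using h))

lemma e_cov (n : ℕ) {t : ℝ} (h0 : 0 < t) (h1 : t ≤ e n 0) : ∃ j, n ≤ j ∧ ∃ s : J, t = e j s := by
  have a : (n:ℝ) ≤ 1 / t - 1 := by
    rw [e, le_one_div h0 (by positivity)] at h1; linarith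
  have b : 0 ≤ 1 / t - 1 := (Nat.cast_nonneg n).trans a
  refine ⟨⌊1 / t - 1⌋₊, Nat.le_floor a, ⟨1 / t - 1 - ⌊1 / t - 1⌋₊, by linarith [Nat.floor_le b],
    by linarith [Nat.lt_floor_add_one (1 / t - 1)]⟩, ?_⟩
  simp only [e]
  rw [show (⌊1 / t - 1⌋₊ : ℝ) + 1 + (1 / t - 1 - ⌊1 / t - 1⌋₊) = 1 / t by ring, one_div_one_div]

lemma e_tend : Tendsto (fun n => e n 0) atTop (𝓝 0) := by
  simpa [e] using tendsto_one_div_add_atTop_nhds_zero_nat (𝕜 := ℝ)

lemma evn {P : ℝ → Prop} (h : ∀ᶠ t in 𝓝[≥] 0, P t) : ∀ᶠ n in atTop, ∀ t ∈ Icc 0 (e n 0), P t := by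
  obtain ⟨u, hu, h⟩ := mem_nhdsGE_iff_exists_Icc_subset.1 h
  filter_upwards [e_tend.eventually (ge_mem_nhds hu)] with n hn t ht
  exact h ⟨ht.1, ht.2.trans hn⟩

lemma nve {P : ℝ → Prop} (n : ℕ) (h : ∀ t ∈ Icc 0 (e n 0), P t) : ∀ᶠ t in 𝓝[≥] 0, P t :=
  mem_of_superset (Icc_mem_nhdsGE (e_pos n le_rfl)) h

section
variable (τ : ℕ → ℝ)

noncomputable def α (j : ℕ) : MvPolynomial ℕ ℚ →+* W :=
  MvPolynomial.eval₂Hom (cst.comp (algebraMap ℚ ℝ))
    fun i => if i = j then cst (τ i) * T else cst (τ i)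

lemma α_ev (j : ℕ) : (ev j1).comp (α τ j) = (MvPolynomial.aeval τ).toRingHom := by
  ext i
  · simp
  · by_cases h : i = j <;> simp [α, h, ev_cst, ev_T, j1]

noncomputable def Q (j : ℕ) : Subring W := Qr (α τ j)

def Sl (j : ℕ) (p : ℝ → ℝ) : Prop := ∃ g ∈ Q τ j, ∀ s : J, p (e j s) = ev s g

lemma Sl.zero (j : ℕ) : Sl τ j 0 := ⟨0, zero_mem _, fun _ => by simp⟩
lemma Sl.one (j : ℕ) : Sl τ j 1 := ⟨1, one_mem _, fun _ => by simp⟩
variable {τ}
lemma Sl.add {j : ℕ} {p q : ℝ → ℝ} (a : Sl τ j p) (b : Sl τ j q) : Sl τ j (p + q) :=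
  let ⟨g, h, k⟩ := a; let ⟨g', h', k'⟩ := b; ⟨g + g', add_mem h h', fun s => by simp [k, k']⟩
lemma Sl.mul {j : ℕ} {p q : ℝ → ℝ} (a : Sl τ j p) (b : Sl τ j q) : Sl τ j (p * q) :=
  let ⟨g, h, k⟩ := a; let ⟨g', h', k'⟩ := b; ⟨g * g', mul_mem h h', fun s => by simp [k, k']⟩
lemma Sl.neg {j : ℕ} {p : ℝ → ℝ} (a : Sl τ j p) : Sl τ j (-p) :=
  let ⟨g, h, k⟩ := a; ⟨-g, neg_mem h, fun s => by simp [k]⟩
lemma Sl.congr {j : ℕ} {p q : ℝ → ℝ} (a : Sl τ j p) (h : ∀ s : J, q (e j s) = p (e j s)) :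
    Sl τ j q :=
  let ⟨g, k, l⟩ := a; ⟨g, k, fun s => (h s).trans (l s)⟩
variable (τ)

def AA : Subring (ℝ → ℝ) where
  carrier := {p | ∀ᶠ n in atTop, ContinuousOn p (Icc 0 (e n 0)) ∧ Sl τ n p}
  mul_mem' a b := by
    filter_upwards [a, b] with n h k using ⟨h.1.mul k.1, h.2.mul k.2⟩
  one_mem' := Eventually.of_forall fun n => ⟨continuousOn_const, Sl.one τ n⟩
  add_mem' a b := by
    filter_upwards [a, b] with n h k using ⟨h.1.add k.1, h.2.add k.2⟩
  zero_mem' := Eventually.of_forall fun n => ⟨continuousOn_const, Sl.zero τ n⟩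
  neg_mem' a := by
    filter_upwards [a] with n h using ⟨h.1.neg, h.2.neg⟩

def π : AA τ →+* ℝ := (Pi.evalRingHom (fun _ => ℝ) 0).comp (AA τ).subtype

def II : Ideal (AA τ) where
  carrier := {p | ∀ᶠ t in 𝓝[≥] (0:ℝ), p.1 t = 0}
  add_mem' a b := by
    simp only [mem_setOf_eq] at *
    filter_upwards [a, b] with t h k; simp [h, k]
  zero_mem' := by simp
  smul_mem' c p a := by
    simp only [mem_setOf_eq] at *
    filter_upwards [a] with t h; simp [h]

lemma cwa (p : AA τ) : ContinuousWithinAt p.1 (Ici 0) 0 := by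
  obtain ⟨n, h, -⟩ := (show ∀ᶠ n in atTop, _ from p.2).exists
  exact (h 0 ⟨le_rfl, (e_pos n le_rfl).le⟩).mono_of_mem_nhdsWithin
    (Icc_mem_nhdsGE (e_pos n le_rfl))

lemma hensel (P : (AA τ)[X]) (L : ℝ) (h0 : (P.map (π τ)).eval L = 0)
    (h1 : (P.map (π τ)).derivative.eval L ≠ 0) : ∃ a, π τ a = L ∧ P.eval a ∈ II τ := by
  set d := P.natDegree + 1
  let c : ℝ → Fin d → ℝ := fun t i => (P.coeff i).1 t
  have hd : (P.map (π τ)).natDegree < d := Nat.lt_succ_of_le natDegree_map_le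
  have hP : P.map (π τ) = ∑ i : Fin d, C (c 0 i) * X ^ i.1 := by
    rw [(P.map (π τ)).as_sum_range_C_mul_X_pow' hd, Finset.sum_range]
    simp only [coeff_map]; rfl
  rw [hP] at h0 h1
  simp only [eval_finset_sum, derivative_sum, eval_mul, eval_C, eval_pow, eval_X,
    derivative_C_mul, derivative_X_pow, map_natCast, eval_natCast] at h0 h1
  obtain ⟨i, -, hi⟩ := Finset.exists_ne_zero_of_sum_ne_zero h1
  have hi := left_ne_zero_of_mul hi
  obtain ⟨Ψ, p0, p1⟩ := ift d (c 0) L h0 h1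
  have cc : ContinuousWithinAt c (Ici 0) 0 := continuousWithinAt_pi.2 fun i => cwa τ _
  have p2 := cc.eventually p1
  have p3 : ∀ᶠ t in 𝓝[≥] 0, c t i ≠ 0 := (cwa τ _).eventually_ne hi
  have p4 : ∀ᶠ n in atTop, ∀ i : Fin d, ContinuousOn (P.coeff i).1 (Icc 0 (e n 0)) ∧
      Sl τ n (P.coeff i).1 := eventually_all.2 fun i => (P.coeff i).2
  refine ⟨⟨fun t => Ψ (c t), ?_⟩, p0, ?_⟩
  · filter_upwards [evn p2, evn p3, p4] with n a b k
    constructor
    · intro t ht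
      exact (a t ht).1.continuousAt.comp_continuousWithinAt
        (continuousWithinAt_pi.2 fun i => (k i).1 t ht)
    · choose g hg eg using fun i => (k i).2
      choose φ hφ eφ using fun i => (g i).2
      have ee : ∀ s : J, c (e n s) = fun i => φ i s := fun s => funext fun i =>
        (eg i s).trans (eφ i s)
      let G : W := ⟨fun s => Ψ (c (e n s)), fun s => Ψ fun i => φ i s, fun s hs => by
        refine AnalyticAt.comp (f := fun s i => φ i s) ?_ (analyticAt_pi_iff.2 fun i => hφ i s hs)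
        have := (a _ (e_mem n ⟨s, hs⟩)).1
        rwa [ee] at this, fun s => congrArg Ψ (ee s)⟩
      refine ⟨G, ?_, fun s => rfl⟩
      refine Qr_root (α τ n) d (fun i => if h : i < d then g ⟨i, h⟩ else 0)
        (fun i h => by rw [dif_pos h]; exact hg _) i i.2 ?_ G ?_
      · simp only [Fin.is_lt, dite_true]
        intro z
        apply b _ (e_mem n j0)
        exact (eg i j0).trans (by rw [z, map_zero])
      · apply Subtype.ext
        funext s
        show ev s _ = 0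
        rw [← (a _ (e_mem n s)).2, Finset.sum_range, map_sum]
        refine Finset.sum_congr rfl fun i _ => ?_
        simp only [Fin.is_lt, dite_true, map_mul, map_pow]
        rw [← eg i s]; rfl
  · filter_upwards [p2] with t ht
    refine Eq.trans ?_ ht.2
    rw [eval_eq_sum_range, Finset.sum_range]
    simp [c]
    rfl

noncomputable def κ (j : ℕ) (t : ℝ) : ℝ := max 0 (1 / max t (e j 1) - 1 - j)

lemma κ_cont (j : ℕ) : Continuous (κ j) := by
  refine continuous_const.max ((Continuous.sub (continuous_const.div (by fun_prop) fun t =>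
    (lt_max_of_lt_right (e_pos j zero_le_one)).ne') continuous_const).sub continuous_const)

lemma κ_one {j : ℕ} {t : ℝ} (h : t ≤ e j 1) : κ j t = 1 := by
  rw [κ, max_eq_right h, e, one_div_one_div, max_eq_right (by linarith)]; ring

lemma κ_e {j i : ℕ} {s : ℝ} (h0 : 0 ≤ s) (h : i + s ≤ j + 1) : κ j (e i s) = max 0 (i + s - j) := by
  rw [κ, max_eq_left (e_le h0 h), e, one_div_one_div]; congr 1; ring

lemma κ_abs (j : ℕ) (t : ℝ) : |κ j t| ≤ 1 := by
  rw [abs_of_nonneg (le_max_left _ _)]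
  refine max_le zero_le_one ?_
  have := one_div_le_one_div_of_le (e_pos j zero_le_one) (le_max_right t _)
  rw [e, one_div_one_div] at this
  unfold e; linarith

lemma π_surj (hτ : ∀ j, τ j ≠ 0) : Function.Surjective (π τ) := by
  intro x
  have ex : ∀ (j : ℕ) (a : ℝ), ∃ c : ℚ, |x - (a + c * τ j)| ≤ (1 / 2) ^ (j + 1) := by
    intro j a
    have p := abs_pos.2 (hτ j)
    obtain ⟨c, hc⟩ := exists_rat_near ((x - a) / τ j)
      (show 0 < (1 / 2) ^ (j + 1) / |τ j| by positivity)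
    refine ⟨c, ?_⟩
    rw [lt_div_iff₀ p, ← abs_mul] at hc
    rw [sub_mul, div_mul_cancel₀ _ (hτ j), sub_sub] at hc
    exact hc.le
  choose c hc using ex
  let a : ℕ → ℝ := fun n => Nat.rec 0 (fun j y => y + c j y * τ j) n
  let b : ℕ → ℝ := fun j => c j (a j) * τ j
  have as : ∀ n, ∑ j ∈ Finset.range n, b j = a n := by
    intro n
    induction n with
    | zero => rfl
    | succ n ih => rw [Finset.sum_range_succ, ih]
  have ab : ∀ n, |x - a n| ≤ (|x| + 1) * (1 / 2) ^ n := by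
    intro n
    cases n with
    | zero => simp [a]
    | succ n => exact (hc n (a n)).trans (le_mul_of_one_le_left (by positivity)
        (by linarith [abs_nonneg x]))
  have bb : ∀ n, |b n| ≤ 2 * (|x| + 1) * (1 / 2) ^ n := by
    intro n
    have h1 := ab n
    have h2 := ab (n + 1)
    have : b n = (x - a n) - (x - a (n + 1)) := by simp only [a, b]; ring
    rw [this]
    refine (abs_sub _ _).trans ?_
    have : (0:ℝ) ≤ (|x| + 1) * (1 / 2) ^ n := by positivity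
    rw [pow_succ] at h2
    linarith
  have sm : Summable fun n : ℕ => 2 * (|x| + 1) * (1 / 2 : ℝ) ^ n :=
    summable_geometric_two.mul_left _
  have aQ : ∀ j i, i ≤ j → cst (a i) ∈ Q τ j := by
    intro j i
    induction i with
    | zero => intro _; simp [a]
    | succ i ih =>
      intro h
      have := Qr_range (α τ j) (MvPolynomial.C (c i (a i)) * MvPolynomial.X i)
      simp only [α, map_mul, MvPolynomial.eval₂Hom_C, MvPolynomial.eval₂Hom_X',
        if_neg (show i ≠ j by omega)] at this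
      show cst (a i + c i (a i) * τ i) ∈ _
      rw [map_add, map_mul]
      exact add_mem (ih (by omega)) this
  refine ⟨⟨fun t => ∑' j, b j * κ j t, Eventually.of_forall fun n => ⟨?_, ?_⟩⟩, ?_⟩
  · refine (continuous_tsum (f := fun j t => b j * κ j t)
      (fun j => continuous_const.mul (κ_cont j)) sm fun j t => ?_).continuousOn
    rw [Real.norm_eq_abs, abs_mul]
    exact (mul_le_of_le_one_right (abs_nonneg _) (κ_abs j t)).trans (bb j)
  · have := Qr_range (α τ n) (MvPolynomial.C (c n (a n)) * MvPolynomial.X n)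
    simp only [α, map_mul, MvPolynomial.eval₂Hom_C, MvPolynomial.eval₂Hom_X', if_true] at this
    refine ⟨_, add_mem (aQ n n le_rfl) this, fun s => ?_⟩
    have s0 := s.2.1
    have s1 := s.2.2
    beta_reduce
    rw [tsum_eq_sum (s := Finset.range (n + 1)), Finset.sum_range_succ,
      κ_e s0 (by linarith), max_eq_right (by linarith), Finset.sum_congr rfl
        (g := b), as]
    · simp [ev_cst, ev_T, b]; ring
    · intro j hj
      have : (j:ℝ) + 1 ≤ n := by exact_mod_cast Finset.mem_range.1 hj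
      rw [κ_one (e_le zero_le_one (by linarith)), mul_one]
    · intro j hj
      have : (n:ℝ) + 1 ≤ j := by exact_mod_cast not_lt.1 (mt Finset.mem_range.2 hj)
      rw [κ_e s0 (by linarith), max_eq_left (by linarith), mul_zero]
  · show ∑' j, b j * κ j 0 = x
    simp only [κ_one (e_pos _ zero_le_one).le, mul_one]
    have sb : Summable b := .of_norm_bounded sm bb
    refine tendsto_nhds_unique sb.hasSum.tendsto_sum_nat ?_
    simp only [as]
    rw [tendsto_iff_norm_sub_tendsto_zero]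
    refine squeeze_zero (fun _ => norm_nonneg _) (fun n => (norm_sub_rev _ _).le.trans (ab n)) ?_
    have := (tendsto_pow_atTop_nhds_zero_of_lt_one (show (0:ℝ) ≤ 1 / 2 by norm_num)
      (by norm_num)).const_mul (|x| + 1)
    rwa [mul_zero] at this

lemma ex_S (hτ : ∀ j, τ j ≠ 0) : ∃ S : Subring (ℝ → ℝ),
    (∀ p ∈ S, p 0 = 0 → ∀ᶠ t in 𝓝[≥] 0, p t = 0) ∧ (∀ x, ∃ p ∈ S, p ∈ AA τ ∧ p 0 = x) ∧
    ∀ p ∈ S, ∀ q ∈ AA τ, (∀ᶠ t in 𝓝[≥] 0, q t = p t) → q ∈ S := by
  let π' : AA τ ⧸ II τ →+* ℝ := Ideal.Quotient.lift _ (π τ) fun p hp =>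
    (show ∀ᶠ t in 𝓝[≥] (0:ℝ), p.1 t = 0 from hp).self_of_nhdsWithin self_mem_Ici
  obtain ⟨S, h1, h2⟩ := sect π' (fun x => let ⟨p, hp⟩ := π_surj τ hτ x; ⟨Ideal.Quotient.mk _ p, hp⟩)
    (by
      intro P L a b
      obtain ⟨P, rfl⟩ := map_surjective _ Ideal.Quotient.mk_surjective P
      rw [Polynomial.map_map] at a b
      obtain ⟨y, h1, h2⟩ := hensel τ P L a b
      refine ⟨Ideal.Quotient.mk _ y, h1, ?_⟩
      rw [eval_map, eval₂_at_apply, Ideal.Quotient.eq_zero_iff_mem]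
      exact h2)
  refine ⟨(S.comap (Ideal.Quotient.mk _)).map (AA τ).subtype, ?_, ?_, ?_⟩
  · rintro _ ⟨p, hp, rfl⟩ h
    exact Ideal.Quotient.eq_zero_iff_mem.1 (h1 _ hp h)
  · intro x
    obtain ⟨p, hp, rfl⟩ := h2 x
    obtain ⟨p, rfl⟩ := Ideal.Quotient.mk_surjective p
    exact ⟨p, ⟨p, hp, rfl⟩, p.2, rfl⟩
  · rintro _ ⟨p, hp, rfl⟩ q hq h
    refine ⟨⟨q, hq⟩, ?_, rfl⟩
    have : Ideal.Quotient.mk (II τ) ⟨q, hq⟩ = Ideal.Quotient.mk _ p :=
      Ideal.Quotient.eq.2 (h.mono fun t ht => sub_eq_zero.2 ht)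
    show Ideal.Quotient.mk (II τ) ⟨q, hq⟩ ∈ S
    rw [this]; exact hp

end

theorem data : ∃ 𝒜 : ℕ → Subring C(ℝ, ℝ), (∀ n, ∀ p ∈ 𝒜 n, p 0 = 0 → p = 0) ∧
    (∀ n, ((fun p : C(ℝ, ℝ) => p 1) '' 𝒜 n).Countable) ∧
    (∀ x, ∀ᶠ n in atTop, ∃ p ∈ 𝒜 n, p 0 = x) ∧
    (∀ n m, n ≤ m → ∀ p ∈ 𝒜 m, p 1 = 0 → p ∈ 𝒜 n) ∧
    ∀ x, (∀ n, ∃ p ∈ 𝒜 n, p 1 = 0 ∧ p 0 = x) → x = 0 := by
  obtain ⟨τ, hτ⟩ := ex_τ
  obtain ⟨S, s1, s2, s3⟩ := ex_S τ hτ.ne_zero
  have inj : ∀ j, Function.Injective ((ev j1).comp (α τ j)) := fun j => by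
    rw [α_ev]; exact hτ
  let 𝒜 : ℕ → Subring C(ℝ, ℝ) := fun n =>
    { carrier := {p | ⇑p ∈ S ∧ (∀ j, n ≤ j → Sl τ j p) ∧ (∀ t, e n 0 ≤ t → p t = p 1) ∧
        ∀ t, t ≤ 0 → p t = p 0}
      mul_mem' := fun a b => ⟨mul_mem a.1 b.1, fun j h => (a.2.1 j h).mul (b.2.1 j h),
        fun t h => by simp [a.2.2.1 t h, b.2.2.1 t h], fun t h => by simp [a.2.2.2 t h, b.2.2.2 t h]⟩
      one_mem' := ⟨one_mem S, fun j _ => Sl.one τ j, fun _ _ => rfl, fun _ _ => rfl⟩
      add_mem' := fun a b => ⟨add_mem a.1 b.1, fun j h => (a.2.1 j h).add (b.2.1 j h),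
        fun t h => by simp [a.2.2.1 t h, b.2.2.1 t h], fun t h => by simp [a.2.2.2 t h, b.2.2.2 t h]⟩
      zero_mem' := ⟨zero_mem S, fun j _ => Sl.zero τ j, fun _ _ => rfl, fun _ _ => rfl⟩
      neg_mem' := fun a => ⟨neg_mem a.1, fun j h => (a.2.1 j h).neg,
        fun t h => by simp [a.2.2.1 t h], fun t h => by simp [a.2.2.2 t h]⟩ }
  have e1 : ∀ n, e n 0 ≤ 1 := fun n => by simpa [e] using e_le (i := 0) (j := n) (t := 0) le_rfl (by simp)
  have h1 : ∀ n, ∀ p ∈ 𝒜 n, p 0 = 0 → p = 0 := by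
    rintro n p ⟨a, b, c, d⟩ h
    obtain ⟨N, hN, hz⟩ := ((eventually_ge_atTop n).and (evn (s1 _ a h))).exists
    have : ∀ m, n ≤ m → m ≤ N → ∀ t ∈ Icc 0 (e m 0), p t = 0 := by
      intro m h1 h2
      induction h2 using Nat.decreasingInduction with
      | self => exact hz
      | of_succ k hk ih =>
        intro t ht
        have ih := ih (by omega)
        by_cases c : t ≤ e (k + 1) 0
        · exact ih t ⟨ht.1, c⟩
        · obtain ⟨j, hj, s, rfl⟩ := e_cov k ((e_pos _ le_rfl).trans (not_le.1 c)) ht.2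
          obtain rfl | hj := eq_or_lt_of_le hj
          · obtain ⟨g, g1, g2⟩ := b k h1
            rw [g2, Qr_inj _ _ (inj k) g1 (by
              rw [← g2]; exact ih _ ⟨(e_pos _ zero_le_one).le, (e_succ k).ge⟩), map_zero]
          · exact absurd (e_le le_rfl (by
              have : ((k + 1 : ℕ) : ℝ) ≤ j := by exact_mod_cast hj
              linarith [s.2.1])) c
    have z := this n le_rfl hN
    ext t
    rcases le_total t 0 with k | k
    · exact (d t k).trans h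
    rcases le_total t (e n 0) with k' | k'
    · exact z t ⟨k, k'⟩
    · rw [c t k', ← c _ le_rfl]; exact z _ ⟨(e_pos n le_rfl).le, le_rfl⟩
  have h4 : ∀ n m, n ≤ m → ∀ p ∈ 𝒜 m, p 1 = 0 → p ∈ 𝒜 n := by
    rintro n m h p ⟨a, b, c, d⟩ z
    refine ⟨a, fun j _ => ?_, fun t ht => c t ((e_le le_rfl (by simpa using h)).trans ht), d⟩
    by_cases k : m ≤ j
    · exact b j k
    · refine (Sl.zero τ j).congr fun s => (c _ (e_le s.2.1 ?_)).trans z
      have : (j:ℝ) + 1 ≤ m := by exact_mod_cast not_le.1 k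
      linarith [s.2.2]
  refine ⟨𝒜, h1, fun n => ?_, fun x => ?_, h4, fun x hx => ?_⟩
  · refine ((Qr_count (α τ n) (Function.Injective.of_comp (f := ev j1) (inj n))).image
      (ev j0)).mono ?_
    rintro _ ⟨p, ⟨-, b, c, -⟩, rfl⟩
    obtain ⟨g, g1, g2⟩ := b n le_rfl
    exact ⟨g, g1, (g2 j0).symm.trans (c _ le_rfl)⟩
  · obtain ⟨p, hp, hA, rfl⟩ := s2 x
    obtain ⟨N, hN⟩ := eventually_atTop.1 hA
    filter_upwards [eventually_ge_atTop N] with n hn
    have p0 := (e_pos n le_rfl).le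
    have cl : ∀ t ∈ Icc 0 (e n 0), max 0 (min t (e n 0)) = t := fun t ht => by
      rw [min_eq_left ht.2, max_eq_right ht.1]
    let q : C(ℝ, ℝ) := ⟨fun t => p (max 0 (min t (e n 0))), (hN n hn).1.comp_continuous
      (by fun_prop) fun t => ⟨le_max_left _ _, max_le p0 (min_le_right _ _)⟩⟩
    have sl : ∀ j, n ≤ j → Sl τ j q := fun j hj => (hN j (hn.trans hj)).2.congr fun s =>
      congrArg p (cl _ (e_sub hj (e_mem j s)))
    refine ⟨q, ⟨s3 p hp q ?_ (nve n fun t ht => congrArg p (cl t ht)), sl, fun t ht => ?_,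
      fun t ht => ?_⟩, congrArg p (cl 0 ⟨le_rfl, p0⟩)⟩
    · filter_upwards [eventually_ge_atTop n] with j hj using ⟨q.continuous.continuousOn, sl j hj⟩
    · simp only [q, ContinuousMap.coe_mk, min_eq_right ht, min_eq_right (e1 n)]
    · simp only [q, ContinuousMap.coe_mk, min_eq_left p0, min_eq_left (ht.trans p0), max_eq_left ht,
        max_self]
  · choose p h2 h3 h5 using hx
    have : ∀ n, p n = p 0 := fun n => sub_eq_zero.1 (h1 0 _
      (sub_mem (h4 0 n n.zero_le _ (h2 n) (h3 n)) (h2 0)) (by simp [h5]))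
    have z : ∀ n, p 0 (e n 0) = 0 := fun n => by
      rw [← this n, (h2 n).2.2.1 _ le_rfl, h3]
    have := ((p 0).continuous.tendsto 0).comp e_tend
    simp only [Function.comp_def, z, h5] at this
    exact tendsto_nhds_unique this tendsto_const_nhds

end Pool.Agent.H.MP_bfb3ed_al
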