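import Pool.Agent.H.MP_bfb3ed_al.B

open Set Filter Topology Real

namespace Pool.Agent.H.MP_bfb3ed_al

abbrev Mat := Matrix (Fin 2) (Fin 2) ℝ

def Par (M : Mat) (x y : ℝ) : Prop :=
  (M.mulVec ![cos (π * x), sin (π * x)]) 0 * sin (π * y)
    - (M.mulVec ![cos (π * x), sin (π * x)]) 1 * cos (π * y) = 0

lemma par_iff (M : Mat) (x y : ℝ) : Par M x y ↔
    (M 0 0 * cos (π * x) + M 0 1 * sin (π * x)) * sin (π * y)
      - (M 1 0 * cos (π * x) + M 1 1 * sin (π * x)) * cos (π * y) = 0 := by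
  simp [Par, Matrix.mulVec, dotProduct, Fin.sum_univ_two]

lemma Par.comp {M N : Mat} {x y z : ℝ} (h : Par M x y) (k : Par N y z) : Par (N * M) x z := by
  rw [par_iff] at *
  simp only [Matrix.mul_apply, Fin.sum_univ_two]
  have e := sin_sq_add_cos_sq (π * y)
  set v0 := M 0 0 * cos (π * x) + M 0 1 * sin (π * x) with h0
  set v1 := M 1 0 * cos (π * x) + M 1 1 * sin (π * x) with h1
  set A := N 0 0 * sin (π * z) - N 1 0 * cos (π * z) with hA
  set B := N 0 1 * sin (π * z) - N 1 1 * cos (π * z) with hB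
  have : v0 * A + v1 * B = 0 := by
    have k' : cos (π * y) * A + sin (π * y) * B = 0 := by rw [hA, hB]; linear_combination k
    linear_combination (v0 * cos (π * y) + v1 * sin (π * y)) * k' - (v0 * A + v1 * B) * e
      + (sin (π * y) * A - cos (π * y) * B) * h
  rw [h0, h1, hA, hB] at this
  linear_combination this

lemma par_one {x y : ℝ} : Par 1 x y ↔ ∃ k : ℤ, y - x = k := by
  rw [par_iff]
  simp only [Matrix.one_apply_eq, one_mul, Matrix.one_apply_ne (show (0 : Fin 2) ≠ 1 by decide),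
    Matrix.one_apply_ne (show (1 : Fin 2) ≠ 0 by decide), zero_mul, add_zero, zero_add]
  rw [show cos (π * x) * sin (π * y) - sin (π * x) * cos (π * y) = sin (π * (y - x)) by
    rw [mul_sub, sin_sub]; ring, sin_eq_zero_iff]
  refine exists_congr fun k => ?_
  rw [mul_comm π, mul_left_inj' pi_ne_zero, eq_comm]

lemma v_ne {M : Mat} (h : M.det = 1) (x : ℝ) (a : M 0 0 * cos x + M 0 1 * sin x = 0)
    (b : M 1 0 * cos x + M 1 1 * sin x = 0) : False := by
  rw [Matrix.det_fin_two] at h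
  have e := sin_sq_add_cos_sq x
  have c : cos x = 0 := by linear_combination M 1 1 * a - M 0 1 * b - cos x * h
  have s : sin x = 0 := by linear_combination M 0 0 * b - M 1 0 * a - sin x * h
  rw [c, s] at e; norm_num at e

lemma Par.uniq {M : Mat} (h : M.det = 1) {x y z : ℝ} (a : Par M x y) (b : Par M x z) :
    ∃ k : ℤ, z - y = k := by
  rw [← par_one, par_iff]
  rw [par_iff] at a b
  simp only [Matrix.one_apply_eq, one_mul, Matrix.one_apply_ne (show (0 : Fin 2) ≠ 1 by decide),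
    Matrix.one_apply_ne (show (1 : Fin 2) ≠ 0 by decide), zero_mul, add_zero, zero_add]
  by_contra c
  refine v_ne h (π * x) ((mul_eq_zero.1 ?_).resolve_right c) ((mul_eq_zero.1 ?_).resolve_right c)
  · linear_combination cos (π * y) * b - cos (π * z) * a
  · linear_combination sin (π * y) * b - sin (π * z) * a

lemma int_const {A : Type} [TopologicalSpace A] [PreconnectedSpace A] {g : A → ℝ}
    (c : Continuous g) (h : ∀ a, ∃ k : ℤ, g a = k) (a b : A) : g a = g b := by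
  wlog l : g a < g b generalizing a b
  · rcases (not_lt.1 l).eq_or_lt with e | e
    · exact e.symm
    · exact (this b a e).symm
  obtain ⟨k, hk⟩ := h a
  obtain ⟨m, hm⟩ := h b
  have : (k:ℝ) + 1 ≤ m := by rw [hk, hm] at l; exact_mod_cast l
  obtain ⟨x, hx⟩ := intermediate_value_univ a b c (show (k:ℝ) + 1 / 2 ∈ _ from
    ⟨by linarith, by linarith⟩)
  obtain ⟨n, hn⟩ := h x
  have : ((2 * n : ℤ) : ℝ) = (2 * k + 1 : ℤ) := by push_cast; linarith
  have : 2 * n = 2 * k + 1 := by exact_mod_cast this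
  omega

lemma lift_ex (M : ℝ → Mat) (c : ∀ i j, Continuous fun s => M s i j) (d : ∀ s, (M s).det = 1) :
    ∃ Θ : ℝ × ℝ → ℝ, Continuous Θ ∧ ∀ s x, Par (M s) x (Θ (s, x)) := by
  let w : C(ℝ × ℝ, ℂ) := ⟨fun p => ((M p.1 0 0 * cos (π * p.2) + M p.1 0 1 * sin (π * p.2) : ℝ) : ℂ)
    + ((M p.1 1 0 * cos (π * p.2) + M p.1 1 1 * sin (π * p.2) : ℝ) : ℂ) * Complex.I, by
      have := c 0 0; have := c 0 1; have := c 1 0; have := c 1 1
      fun_prop⟩
  have re : ∀ p, (w p).re = M p.1 0 0 * cos (π * p.2) + M p.1 0 1 * sin (π * p.2) := fun p => by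
    simp only [w, ContinuousMap.coe_mk, Complex.add_re, Complex.ofReal_re, Complex.mul_I_re,
      Complex.ofReal_im, neg_zero, add_zero]
  have im : ∀ p, (w p).im = M p.1 1 0 * cos (π * p.2) + M p.1 1 1 * sin (π * p.2) := fun p => by
    simp only [w, ContinuousMap.coe_mk, Complex.add_im, Complex.ofReal_re, Complex.mul_I_im,
      Complex.ofReal_im, zero_add]
  have ne : ∀ p, w p ∈ ({0}ᶜ : Set ℂ) := fun p h =>
    v_ne (d p.1) (π * p.2) (by rw [← re, h]; rfl) (by rw [← im, h]; rfl)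
  obtain ⟨F, ⟨-, hF⟩, -⟩ := Complex.isCoveringMapOn_exp.existsUnique_continuousMap_lifts w
    (Complex.exp_log (ne 0)) ne
  refine ⟨fun p => (F p).im / π, by fun_prop, fun s x => ?_⟩
  rw [par_iff, ← re (s, x), ← im (s, x), ← hF, mul_div_cancel₀ _ pi_ne_zero]
  simp only [Function.comp, Complex.exp_re, Complex.exp_im]
  ring

def G : Type := {f : ℝ → ℝ // Continuous f ∧ ∃ M : Mat, M.det = 1 ∧ ∀ x, Par M x (f x)}

def sh (k : ℤ) : G := ⟨fun x => x + k, by fun_prop, 1, by simp, fun x => par_one.2 ⟨k, by ring⟩⟩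

instance : Mul G := ⟨fun f g => ⟨f.1 ∘ g.1, f.2.1.comp g.2.1, by
  obtain ⟨M, a, b⟩ := f.2.2
  obtain ⟨N, c, d⟩ := g.2.2
  exact ⟨M * N, by simp [a, c], fun x => (d x).comp (b _)⟩⟩⟩

instance : One G := ⟨⟨id, continuous_id, 1, by simp, fun x => par_one.2 ⟨0, by simp⟩⟩⟩

lemma adj_det {M : Mat} (h : M.det = 1) : M.adjugate.det = 1 := by
  rw [Matrix.det_adjugate, h, one_pow]

lemma eq_sh (f g : G) {M : Mat} (h : M.det = 1) (a : ∀ x, Par M x (f.1 x))
    (b : ∀ x, Par M x (g.1 x)) : ∃ k, g = sh k * f := by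
  obtain ⟨k, hk⟩ := (a 0).uniq h (b 0)
  refine ⟨k, Subtype.ext (funext fun x => ?_)⟩
  have := int_const (g.2.1.sub f.2.1) (fun x => (a x).uniq h (b x)) x 0
  show g.1 x = f.1 x + k
  simp only [Pi.sub_apply] at this
  linarith

lemma ex_inv (f : G) : ∃ g, f * g = 1 := by
  obtain ⟨M, a, b⟩ := f.2.2
  obtain ⟨Θ, c, d⟩ := lift_ex (fun _ => M.adjugate) (fun _ _ => continuous_const)
    fun _ => adj_det a
  let g : G := ⟨fun x => Θ (0, x), by fun_prop, _, adj_det a, d 0⟩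
  obtain ⟨k, hk⟩ := eq_sh 1 (f * g) Matrix.det_one (fun x => par_one.2 ⟨0, (sub_self x).trans Int.cast_zero.symm⟩)
    fun x => by
      have := (d 0 x).comp (b _)
      rwa [Matrix.mul_adjugate, a, one_smul] at this
  refine ⟨g * sh (-k), Subtype.ext (funext fun x => ?_)⟩
  have := congrArg (fun f : G => f.1 (x + (-k : ℤ))) hk
  refine this.trans ?_
  show x + ((-k : ℤ) : ℝ) + k = x
  simp

noncomputable instance : Inv G := ⟨fun f => (ex_inv f).choose⟩

noncomputable instance : Group G :=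
  Group.ofRightAxioms (fun _ _ _ => rfl) (fun _ => rfl) fun f => (ex_inv f).choose_spec

def evs (s : ℝ) : C(ℝ, ℝ) →+* ℝ :=
  (Pi.evalRingHom (fun _ => ℝ) s).comp ContinuousMap.coeFnRingHom

abbrev MM := Matrix (Fin 2) (Fin 2) C(ℝ, ℝ)

def em (s : ℝ) : MM →+* Mat := (evs s).mapMatrix

lemma em_app (s : ℝ) (M : MM) (i j : Fin 2) : em s M i j = M i j s := rfl

lemma em_det (s : ℝ) (M : MM) : (em s M).det = M.det s := ((evs s).map_det M).symm

lemma em_adj (s : ℝ) (M : MM) : em s M.adjugate = (em s M).adjugate := (evs s).map_adjugate M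

def Lf (M : MM) (f : G) : Prop := ∃ Θ : ℝ × ℝ → ℝ, Continuous Θ ∧ (∀ x, Θ (1, x) = x) ∧
  (∀ x, Θ (0, x) = f.1 x) ∧ ∀ s x, Par (em s M) x (Θ (s, x))

lemma Lf.mul {M N : MM} {f g : G} (a : Lf M f) (b : Lf N g) : Lf (M * N) (f * g) := by
  obtain ⟨Θ, a1, a2, a3, a4⟩ := a
  obtain ⟨Ξ, b1, b2, b3, b4⟩ := b
  refine ⟨fun p => Θ (p.1, Ξ p), by fun_prop, fun x => by simp only [a2, b2], fun x => ?_,
    fun s x => ?_⟩
  · simp only [a3, b3]; rfl
  · rw [map_mul]; exact (b4 s x).comp (a4 s _)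

lemma Lf.one {f : G} (a : Lf 1 f) : f = 1 := by
  obtain ⟨Θ, a1, a2, a3, a4⟩ := a
  refine Subtype.ext (funext fun x => ?_)
  have := int_const (g := fun p : ℝ × ℝ => Θ p - p.2) (by fun_prop)
    (fun p => par_one.1 (by simpa using a4 p.1 p.2)) (0, x) (1, x)
  simp only [a2, a3, sub_self, sub_eq_zero] at this
  exact this

lemma Lf.par {M : MM} {f : G} (a : Lf M f) (x : ℝ) : Par (em 0 M) x (f.1 x) := by
  obtain ⟨Θ, -, -, a3, a4⟩ := a
  rw [← a3]; exact a4 0 x

lemma ex_Lf {M : MM} (d : M.det = 1) (h : em 1 M = 1) : ∃ f, Lf M f := by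
  have d' : ∀ s, (em s M).det = 1 := fun s => by rw [em_det, d]; rfl
  obtain ⟨Θ, c, a⟩ := lift_ex (fun s => em s M) (fun i j => (M i j).continuous) d'
  have b : ∀ x, ∃ k : ℤ, Θ (1, x) - x = k := fun x => par_one.1 (h ▸ a 1 x)
  obtain ⟨k, hk⟩ := b 0
  have p : ∀ s x, Par (em s M) x (Θ (s, x) - k) := fun s x => by
    simpa using (a s x).comp (par_one.2 ⟨-k, by simp⟩ : Par 1 _ (Θ (s, x) - k))
  refine ⟨⟨fun x => Θ (0, x) - k, by fun_prop, _, d' 0, p 0⟩, fun p => Θ p - k, by fun_prop,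
    fun x => ?_, fun _ => rfl, p⟩
  have := int_const (g := fun x => Θ (1, x) - x) (by fun_prop) b x 0
  simp only at this ⊢
  linarith

def In (A : Subring C(ℝ, ℝ)) (M : MM) : Prop := ∀ i j, M i j ∈ A

lemma In.mul {A : Subring C(ℝ, ℝ)} {M N : MM} (a : In A M) (b : In A N) : In A (M * N) :=
  fun i j => by rw [Matrix.mul_apply]; exact sum_mem fun k _ => mul_mem (a _ _) (b _ _)

lemma In.one (A : Subring C(ℝ, ℝ)) : In A 1 := fun i j => by
  rw [Matrix.one_apply]; split_ifs; exacts [one_mem _, zero_mem _]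

lemma In.adj {A : Subring C(ℝ, ℝ)} {M : MM} (a : In A M) : In A M.adjugate := fun i j => by
  rw [Matrix.adjugate_fin_two]
  fin_cases i <;> fin_cases j <;> simp [a _ _]

def HH (A : Subring C(ℝ, ℝ)) : Subgroup G where
  carrier := {f | ∃ M, In A M ∧ M.det = 1 ∧ em 1 M = 1 ∧ Lf M f}
  mul_mem' := by
    rintro f g ⟨M, a, b, c, d⟩ ⟨N, a', b', c', d'⟩
    exact ⟨M * N, a.mul a', by simp [b, b'], by simp [c, c'], d.mul d'⟩
  one_mem' := by
    obtain ⟨f, h⟩ := ex_Lf (M := 1) (by simp) (by simp)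
    exact ⟨1, In.one A, by simp, by simp, h.one ▸ h⟩
  inv_mem' := by
    rintro f ⟨M, a, b, c, d⟩
    have b' : M.adjugate.det = 1 := by rw [Matrix.det_adjugate, b, one_pow]
    have c' : em 1 M.adjugate = 1 := by rw [em_adj, c, Matrix.adjugate_one]
    obtain ⟨g, h⟩ := ex_Lf b' c'
    have := d.mul h
    rw [Matrix.mul_adjugate, b, one_smul] at this
    exact ⟨_, a.adj, b', c', (eq_inv_of_mul_eq_one_right this.one) ▸ h⟩

lemma emb {Γ : Type} [Group Γ] (H : ℕ → Subgroup Γ) (c : ∀ n, Countable (Γ ⧸ H n))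
    (t : ∀ g, (∀ n, g ∈ H n) → g = 1) : ∃ φ : Γ →* Equiv.Perm ℕ, Function.Injective φ := by
  obtain ⟨ι, hι⟩ := exists_injective_nat (Σ n, Γ ⧸ H n)
  refine ⟨(Equiv.Perm.viaEmbeddingHom ⟨ι, hι⟩).comp (MulAction.toPermHom Γ _),
    (Equiv.Perm.viaEmbeddingHom_injective _).comp ((injective_iff_map_eq_one _).2 fun g hg =>
      t g fun n => ?_)⟩
  have : g • (⟨n, ((1 : Γ) : Γ ⧸ H n)⟩ : Σ n, Γ ⧸ H n) = ⟨n, _⟩ := DFunLike.congr_fun hg _
  rw [Sigma.smul_mk, Sigma.mk.inj_iff, heq_eq_eq, MulAction.Quotient.smul_coe,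
    QuotientGroup.eq] at this
  simpa using this.2

lemma sq_eq {M N : Mat} (a : M.det = 1) (b : N.det = 1) {f : ℝ → ℝ} (h : ∀ x, Par M x (f x))
    (k : ∀ x, Par N x (f x)) (i j : Fin 2) : M i j ^ 2 = N i j ^ 2 := by
  have key : ∀ x, (M 0 0 * cos (π * x) + M 0 1 * sin (π * x)) *
      (N 1 0 * cos (π * x) + N 1 1 * sin (π * x)) = (M 1 0 * cos (π * x) + M 1 1 * sin (π * x)) *
      (N 0 0 * cos (π * x) + N 0 1 * sin (π * x)) := by
    intro x
    have h := (par_iff _ _ _).1 (h x)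
    have k := (par_iff _ _ _).1 (k x)
    have e := sin_sq_add_cos_sq (π * f x)
    generalize M 0 0 * cos (π * x) + M 0 1 * sin (π * x) = u0 at *
    generalize M 1 0 * cos (π * x) + M 1 1 * sin (π * x) = u1 at *
    generalize N 0 0 * cos (π * x) + N 0 1 * sin (π * x) = v0 at *
    generalize N 1 0 * cos (π * x) + N 1 1 * sin (π * x) = v1 at *
    linear_combination (v1 * sin (π * f x) + v0 * cos (π * f x)) * h
      - (u1 * sin (π * f x) + u0 * cos (π * f x)) * k - (u0 * v1 - u1 * v0) * e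
  have k0 := key 0
  have k1 := key (1 / 2)
  have k2 := key (1 / 4)
  rw [mul_one_div] at k1 k2
  simp only [mul_zero, cos_zero, sin_zero, mul_one, add_zero, cos_pi_div_two, sin_pi_div_two,
    zero_add, cos_pi_div_four, sin_pi_div_four] at k0 k1 k2
  have s : √2 * √2 = 2 := mul_self_sqrt zero_le_two
  have k3 : M 0 0 * N 1 1 + M 0 1 * N 1 0 = M 1 0 * N 0 1 + M 1 1 * N 0 0 := by
    have : (M 0 0 + M 0 1) * (N 1 0 + N 1 1) = (M 1 0 + M 1 1) * (N 0 0 + N 0 1) := by
      linear_combination 2 * k2 - ((M 0 0 + M 0 1) * (N 1 0 + N 1 1) -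
        (M 1 0 + M 1 1) * (N 0 0 + N 0 1)) / 2 * s
    linear_combination this - k0 - k1
  rw [Matrix.det_fin_two] at a b
  set l := M 0 0 * N 1 1 - M 1 0 * N 0 1 with hl
  have e : ∀ i j, M i j = l * N i j := by
    simp only [Fin.forall_fin_two]
    refine ⟨⟨?_, ?_⟩, ?_, ?_⟩
    · linear_combination -M 0 0 * b - N 0 1 * k0 - N 0 0 * hl
    · linear_combination -M 0 1 * b + N 0 0 * k1 - N 0 1 * k3 - N 0 1 * hl
    · linear_combination -M 1 0 * b - N 1 1 * k0 - N 1 0 * hl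
    · linear_combination -M 1 1 * b + N 1 0 * k1 - N 1 1 * k3 - N 1 1 * hl
  have : l ^ 2 = 1 := by
    rw [e 0 0, e 0 1, e 1 0, e 1 1] at a
    linear_combination a - l ^ 2 * b
  rw [e i j, mul_pow, this, one_mul]

theorem emb_G : ∃ φ : G →* Equiv.Perm ℕ, Function.Injective φ := by
  obtain ⟨𝒜, h1, h2, h3, h4, h5⟩ := data
  refine emb (fun n => HH (𝒜 n)) (fun n => ?_) fun f hf => ?_
  · have ex : ∀ f : G, ∃ m, n ≤ m ∧ ∃ M, In (𝒜 m) M ∧ M.det = 1 ∧ ∀ x, Par (em 0 M) x (f.1 x) := by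
      intro f
      obtain ⟨M, a, b⟩ := f.2.2
      obtain ⟨m, hm, c⟩ := ((eventually_ge_atTop n).and (eventually_all.2 fun i =>
        eventually_all.2 fun j => h3 (M i j))).exists
      choose N hN e using c
      have : em 0 (Matrix.of N) = M := by ext i j; exact e i j
      refine ⟨m, hm, Matrix.of N, hN, sub_eq_zero.1 (h1 m _ (sub_mem ?_ (one_mem _)) ?_),
        this ▸ b⟩
      · rw [Matrix.det_fin_two]
        exact sub_mem (mul_mem (hN _ _) (hN _ _)) (mul_mem (hN _ _) (hN _ _))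
      · rw [ContinuousMap.sub_apply, ← em_det, this, a]; simp
    choose m hm M a b c using ex
    let col : G → ℕ × Mat := fun f => (m f, em 1 (M f))
    have cc : (range col).Countable := by
      refine (countable_iUnion fun k => (countable_singleton k).prod (countable_univ_pi fun _ =>
        countable_univ_pi fun _ => h2 k)).mono ?_
      rintro _ ⟨f, rfl⟩
      exact mem_iUnion.2 ⟨m f, rfl, fun i _ j _ => ⟨_, a f i j, rfl⟩⟩
    haveI := cc.to_subtype
    refine Function.Surjective.countable (f := fun p : range col × ℤ =>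
      ((sh p.2 * p.1.2.choose : G) : G ⧸ HH (𝒜 n))) fun q => ?_
    obtain ⟨g, rfl⟩ := QuotientGroup.mk_surjective q
    have hf := (mem_range_self (f := col) g).choose_spec
    set f := (mem_range_self (f := col) g).choose
    obtain ⟨e1, e2⟩ := Prod.mk.inj hf
    have d1 : ((M f).adjugate * M g).det = 1 := by simp [Matrix.det_adjugate, b]
    have d2 : em 1 ((M f).adjugate * M g) = 1 := by
      rw [map_mul, em_adj, e2, Matrix.adjugate_mul, em_det, b]; simp
    have d3 : In (𝒜 n) ((M f).adjugate * M g) := fun i j => by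
      have := h4 n _ (hm g) _ (sub_mem (((e1 ▸ a f).adj.mul (a g)) i j) (In.one _ i j))
        (by rw [ContinuousMap.sub_apply, ← em_app, ← em_app, d2, map_one, sub_self])
      simpa using add_mem this (In.one (𝒜 n) i j)
    obtain ⟨h, hh⟩ := ex_Lf d1 d2
    obtain ⟨k, hk⟩ := eq_sh (f * h) g (M := em 0 (M g)) (by rw [em_det, b]; rfl) (fun x => by
      have := (hh.par x).comp (c f _)
      rwa [← map_mul, ← mul_assoc, Matrix.mul_adjugate, b, one_smul, one_mul] at this) (c g)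
    refine ⟨(⟨_, mem_range_self g⟩, k), QuotientGroup.eq.2 ?_⟩
    show (sh k * f)⁻¹ * g ∈ _
    rw [hk, ← mul_assoc (sh k), inv_mul_cancel_left]
    exact ⟨_, d3, d1, d2, hh⟩
  · choose M a b c d using hf
    have dt : ∀ n, (em 0 (M n)).det = 1 := fun n => by rw [em_det, b]; rfl
    have o : ∀ s i j, (1 : MM) i j s = (1 : Mat) i j := fun s i j => by rw [← em_app, map_one]
    have z : ∀ i j, (M 0 i j 0) ^ 2 = (1 : Mat) i j ^ 2 := fun i j => sub_eq_zero.1 (h5 _ fun n =>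
      ⟨M n i j ^ 2 - (1 : MM) i j ^ 2, sub_mem (pow_mem (a n i j) 2) (pow_mem (In.one _ i j) 2),
        by simp [o, ← em_app, c], by
        simp only [ContinuousMap.sub_apply, ContinuousMap.pow_apply, o]
        rw [← em_app, ← em_app, sq_eq (dt n) (dt 0) (d n).par (d 0).par]⟩)
    have : M 0 = 1 := by
      ext1 i j
      refine sub_eq_zero.1 (h1 0 _ (sub_mem (a 0 i j) (In.one _ i j)) ?_)
      rcases sq_eq_sq_iff_eq_or_eq_neg.1 (z i j) with e | e
      · simp [o, e]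
      · have := h1 0 _ (add_mem (a 0 i j) (In.one _ i j)) (by simp [o, e])
        have := DFunLike.congr_fun this 1
        rw [ContinuousMap.add_apply, ← em_app, c, o] at this
        have : (1 : Mat) i j = 0 := by simpa using this
        simp [o, e, this]
    exact (this ▸ d 0).one

theorem main : ∀ S : Set (ℝ → ℝ),
      S = {f : ℝ → ℝ | Continuous f ∧
        ∃ M : Matrix (Fin 2) (Fin 2) ℝ, M.det = 1 ∧
          ∀ x : ℝ,
            (M.mulVec ![Real.cos (Real.pi * x), Real.sin (Real.pi * x)]) 0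
                * Real.sin (Real.pi * f x)
              - (M.mulVec ![Real.cos (Real.pi * x), Real.sin (Real.pi * x)]) 1
                * Real.cos (Real.pi * f x) = 0} →
      ∃ φ : (ℝ → ℝ) → Equiv.Perm ℕ,
        (∀ f ∈ S, ∀ g ∈ S, φ (f ∘ g) = φ f * φ g) ∧
        (∀ f ∈ S, ∀ g ∈ S, φ f = φ g → f = g) := by
  classical
  rintro S rfl
  obtain ⟨φ, hφ⟩ := emb_G
  let ψ : (ℝ → ℝ) → Equiv.Perm ℕ := fun f => if h : ∃ a : G, a.1 = f then φ h.choose else 1
  have e : ∀ a : G, ψ a.1 = φ a := fun a => by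
    have h : ∃ b : G, b.1 = a.1 := ⟨a, rfl⟩
    exact (dif_pos h).trans (congrArg φ (Subtype.ext h.choose_spec))
  refine ⟨ψ, fun f hf g hg => ?_, fun f hf g hg k => ?_⟩
  · let a : G := ⟨f, hf⟩
    let b : G := ⟨g, hg⟩
    exact (e (a * b)).trans ((map_mul φ a b).trans (congrArg₂ _ (e a).symm (e b).symm))
  · let a : G := ⟨f, hf⟩
    let b : G := ⟨g, hg⟩
    exact congrArg Subtype.val (hφ ((e a).symm.trans (k.trans (e b))))

end Pool.Agent.H.MP_bfb3ed_al
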